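import Mathlib
import Pool.Agent.Lib.MP_0776bc_co.Main

set_option autoImplicit false

open Set Function

namespace Pool.Agent.Results.MP_0776bc_co.MinimalPresentation

universe u v

/-- A bipartite graph with bipartition `(V, W)` is given by its adjacency relation `G`.
`I ⊆ V` is matchable if some matching (set of pairwise disjoint edges) covers every vertex
of `I`. -/
def Matchable {V : Type u} {W : Type v} (G : V → W → Prop) (I : Set V) : Prop :=
  ∃ m : Set (V × W), (∀ e ∈ m, G e.1 e.2) ∧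
    (∀ e ∈ m, ∀ e' ∈ m, e.1 = e'.1 ∨ e.2 = e'.2 → e = e') ∧ ∀ x ∈ I, ∃ y, (x, y) ∈ m

/-- The independence axioms (I1), (I2), (I3), (IM) of possibly infinite matroids. -/
def IsMatroid {E : Type u} (ind : Set E → Prop) : Prop :=
  ind ∅ ∧ (∀ I J, ind J → I ⊆ J → ind I) ∧
    (∀ I I', ind I → ¬ Maximal ind I → Maximal ind I' → ∃ x ∈ I' \ I, ind (insert x I)) ∧
    ∀ I X, I ⊆ X → ind I → ∃ J, Maximal (fun K => ind K ∧ I ⊆ K ∧ K ⊆ X) J

/-- The graph `G` with the edge `x y` deleted. -/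
def deleteEdge {V : Type u} {W : Type v} (G : V → W → Prop) (x : V) (y : W) : V → W → Prop :=
  fun a b => G a b ∧ (a, b) ≠ (x, y)

/-- Deleting any single edge changes the family of matchable sets. -/
def IsMinimal {V : Type u} {W : Type v} (G : V → W → Prop) : Prop :=
  ∀ x y, G x y → {I | Matchable (deleteEdge G x y) I} ≠ {I | Matchable G I}

theorem matchable_iff {V : Type u} {W : Type v} {G : V → W → Prop} {I : Set V} :
    Matchable G I ↔ ∃ f : I → W, Injective f ∧ ∀ x : I, G x (f x) := by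
  constructor
  · rintro ⟨m, h1, h2, h3⟩
    choose f hf using h3
    refine ⟨fun x => f x x.2, fun a b hab => Subtype.ext ?_, fun x => h1 _ (hf x x.2)⟩
    exact congrArg Prod.fst (h2 _ (hf a a.2) _ (hf b b.2) (Or.inr hab))
  · rintro ⟨f, h1, h2⟩
    refine ⟨range fun x : I => (x.1, f x), ?_, ?_, fun x hx => ⟨f ⟨x, hx⟩, ⟨x, hx⟩, rfl⟩⟩
    · rintro _ ⟨x, rfl⟩
      exact h2 x
    · rintro _ ⟨x, rfl⟩ _ ⟨y, rfl⟩ (h | h)
      · rw [Subtype.ext h]
      · rw [h1 h]

theorem matchable_iff_mat {V : Type u} {W : Type v} [Nonempty W] {G : V → W → Prop}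
    {I : Set V} : Matchable G I ↔ MinPres.Mat G I := by
  classical
  rw [matchable_iff]
  constructor
  · rintro ⟨f, h1, h2⟩
    refine ⟨fun x => if h : x ∈ I then f ⟨x, h⟩ else Classical.arbitrary W, ?_, ?_⟩
    · intro a ha b hb hab
      simp only [dif_pos ha, dif_pos hb] at hab
      exact congrArg Subtype.val (h1 hab)
    · intro a ha
      simp only [dif_pos ha]
      exact h2 ⟨a, ha⟩
  · rintro ⟨f, h1, h2⟩
    exact ⟨fun x => f x, fun a b hab => Subtype.ext (h1 a.2 b.2 hab), fun x => h2 x x.2⟩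

theorem coloop_free {V : Type u} {W : Type v} {M : Matroid V} {G : V → W → Prop}
    (h1 : ∀ I, M.Indep I ↔ Matchable G I) (h2 : ∀ x, ∃ B, M.IsBase B ∧ x ∉ B)
    (h3 : ∀ y, ∃ x, G x y) : ∃ G' : V → W → Prop, (∀ I, M.Indep I ↔ Matchable G' I) ∧
      ∀ x y, G' x y → ∃ I, M.Indep I ∧ ¬ Matchable (deleteEdge G' x y) I := by
  rcases isEmpty_or_nonempty W with hW | hW
  · exact ⟨G, h1, fun _ y => hW.elim y⟩
  obtain ⟨G', h4, h5⟩ := MinPres.Ctx.exists_minimal (M := M) (G := G)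
    ⟨fun I => (h1 I).trans matchable_iff_mat, h2, h3⟩
  refine ⟨G', fun I => (h4 I).trans matchable_iff_mat.symm, fun x y hxy => ?_⟩
  obtain ⟨I, hI, hI'⟩ := h5 x y hxy
  refine ⟨I, hI, fun hh => ?_⟩
  obtain ⟨g, hg1, hg2⟩ := matchable_iff_mat.1 hh
  obtain ⟨hx, e⟩ := hI' g ⟨hg1, fun a ha => (hg2 a ha).1⟩
  exact (hg2 x hx).2 (by rw [e])

/-- Every transversal matroid, on a ground set of any cardinality, has a minimal
presentation. -/
theorem result {V : Type u} {W : Type v} (G : V → W → Prop) (hG : IsMatroid (Matchable G)) :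
    ∃ (W' : Type (max u v)) (G' : V → W' → Prop),
      {I | Matchable G' I} = {I | Matchable G I} ∧ IsMinimal G' := by
  classical
  obtain ⟨hG1, hG2, hG3, hG4⟩ := hG
  let M : Matroid V := IndepMatroid.matroid
    { E := univ
      Indep := Matchable G
      indep_empty := hG1
      indep_subset := fun I J hJ hIJ => hG2 I J hJ hIJ
      indep_aug := fun I B h1 h2 h3 => hG3 I B h1 h2 h3
      indep_maximal := by
        intro X _ I hI hIX
        obtain ⟨J, hJ⟩ := hG4 I X hIX hI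
        exact ⟨J, hJ.1.2.1, ⟨hJ.1.1, hJ.1.2.2⟩,
          fun K hK hJK => hJ.2 ⟨hK.1, hJ.1.2.1.trans hJK, hK.2⟩ hJK⟩
      subset_ground := fun I _ => subset_univ I }
  have hM : ∀ I, M.Indep I ↔ Matchable G I := fun I => Iff.rfl
  set K : Set V := {x | ∀ B, M.IsBase B → x ∈ B} with hK
  have hKind : ∀ I, M.Indep (I \ K) ↔ M.Indep I := by
    refine fun I => ⟨fun h => ?_, fun h => h.subset sdiff_subset⟩
    obtain ⟨B, hB, hIB⟩ := h.exists_isBase_superset
    refine hB.indep.subset fun x hx => ?_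
    by_cases hxK : x ∈ K
    · exact hxK B hB
    · exact hIB ⟨hx, hxK⟩
  let W₁ := {y : W // ∃ x, x ∉ K ∧ G x y}
  let G₁ : V → W₁ → Prop := fun x y => x ∉ K ∧ G x y.1
  have hres : ∀ B, M.IsBase B → (M.restrict Kᶜ).IsBase (B \ K) := by
    intro B hB
    rw [Matroid.isBase_iff_maximal_indep]
    refine ⟨Matroid.restrict_indep_iff.2 ⟨hB.indep.subset sdiff_subset, fun x hx => hx.2⟩, ?_⟩
    intro J hJ hBJ
    obtain ⟨hJ1, hJ2⟩ := Matroid.restrict_indep_iff.1 hJ
    obtain ⟨B', hB', hJB'⟩ := hJ1.exists_isBase_superset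
    have hBB' : B ⊆ B' := fun x hx => by
      by_cases hxK : x ∈ K
      · exact hxK B' hB'
      · exact hJB' (hBJ ⟨hx, hxK⟩)
    rw [hB.eq_of_subset_isBase hB' hBB']
    exact fun x hx => ⟨hJB' hx, hJ2 hx⟩
  obtain ⟨G', h1, h2⟩ := coloop_free (M := M.restrict Kᶜ) (G := G₁) (by
      intro I
      rw [Matroid.restrict_indep_iff, hM, matchable_iff, matchable_iff]
      constructor
      · rintro ⟨⟨f, hf1, hf2⟩, hI⟩
        exact ⟨fun x => ⟨f x, x, hI x.2, hf2 x⟩, fun a b hab => hf1 (congrArg Subtype.val hab),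
          fun x => ⟨hI x.2, hf2 x⟩⟩
      · rintro ⟨f, hf1, hf2⟩
        exact ⟨⟨fun x => (f x).1, fun a b hab => hf1 (Subtype.ext hab), fun x => (hf2 x).2⟩,
          fun x hx => (hf2 ⟨x, hx⟩).1⟩)
    (by
      intro x
      by_cases hx : x ∈ K
      · obtain ⟨B, hB⟩ := M.exists_isBase
        exact ⟨_, hres B hB, fun hh => hh.2 hx⟩
      · have hx' : ¬ ∀ B, M.IsBase B → x ∈ B := hx
        push Not at hx'
        obtain ⟨B, hB, hxB⟩ := hx'
        exact ⟨_, hres B hB, fun hh => hxB hh.1⟩)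
    (fun y => y.2)
  have hG'K : ∀ x y, G' x y → x ∉ K := by
    intro x y hxy
    have : Matchable G' {x} := matchable_iff.2
      ⟨fun _ => y, fun a b _ => Subsingleton.elim a b, fun a => by rw [a.2]; exact hxy⟩
    exact (Matroid.restrict_indep_iff.1 ((h1 _).2 this)).2 rfl
  let G'' : V → V ⊕ W₁ → Prop := fun x y => y.elim (fun k => k ∈ K ∧ x = k) (G' x)
  have hdown : ∀ (H : V → V ⊕ W₁ → Prop) (H' : V → W₁ → Prop) (I : Set V),
      (∀ x y, H x y → G'' x y) → (∀ x y, H x (Sum.inr y) → H' x y) →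
      Matchable H I → Matchable H' (I \ K) := by
    intro H H' I hH hH' hI
    obtain ⟨f, hf1, hf2⟩ := matchable_iff.1 hI
    have : ∀ x : ↥(I \ K), ∃ y, f ⟨x, x.2.1⟩ = Sum.inr y := by
      intro x
      have h3 := hH _ _ (hf2 ⟨x, x.2.1⟩)
      cases hfx : f ⟨x, x.2.1⟩ with
      | inl k =>
        rw [hfx] at h3
        exact absurd (h3.2 ▸ h3.1 : (x : V) ∈ K) x.2.2
      | inr y => exact ⟨y, rfl⟩
    choose g hg using this
    refine matchable_iff.2 ⟨g, fun a b hab => ?_, fun x => hH' _ _ (hg x ▸ hf2 ⟨x, x.2.1⟩)⟩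
    have := hf1 ((hg a).trans ((congrArg Sum.inr hab).trans (hg b).symm))
    exact Subtype.ext (Subtype.mk.inj this)
  have hmain : ∀ I, Matchable G'' I ↔ M.Indep I := by
    intro I
    rw [← hKind]
    constructor
    · intro hI
      exact (Matroid.restrict_indep_iff.1
        ((h1 _).2 (hdown G'' G' I (fun _ _ h => h) (fun _ _ h => h) hI))).1
    · intro hI
      obtain ⟨f, hf1, hf2⟩ := matchable_iff.1
        ((h1 _).1 (Matroid.restrict_indep_iff.2 ⟨hI, fun x hx => hx.2⟩))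
      refine matchable_iff.2 ⟨fun x => if h : x.1 ∈ K then Sum.inl x.1 else
        Sum.inr (f ⟨x.1, x.2, h⟩), ?_, ?_⟩
      · intro a b hab
        by_cases ha : a.1 ∈ K <;> by_cases hb : b.1 ∈ K
        · simp only [dif_pos ha, dif_pos hb] at hab
          exact Subtype.ext (Sum.inl_injective hab)
        · simp [dif_pos ha, dif_neg hb] at hab
        · simp [dif_neg ha, dif_pos hb] at hab
        · simp only [dif_neg ha, dif_neg hb] at hab
          exact Subtype.ext (Subtype.mk.inj (hf1 (Sum.inr_injective hab)))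
      · intro a
        by_cases ha : a.1 ∈ K
        · simp only [dif_pos ha]
          exact ⟨ha, rfl⟩
        · simp only [dif_neg ha]
          exact hf2 ⟨a.1, a.2, ha⟩
  refine ⟨V ⊕ W₁, G'', Set.ext fun I => (hmain I).trans (hM I), ?_⟩
  intro x y hxy heq
  have heq' : ∀ I, Matchable G'' I → Matchable (deleteEdge G'' x y) I :=
    fun I hI => (Set.ext_iff.1 heq I).2 hI
  cases y with
  | inl k =>
    obtain ⟨hk, rfl⟩ : k ∈ K ∧ x = k := hxy
    obtain ⟨f, -, hf⟩ := matchable_iff.1 (heq' {x} (matchable_iff.2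
      ⟨fun _ => Sum.inl x, fun a b _ => Subsingleton.elim a b,
        fun a => by rw [a.2]; exact ⟨hk, rfl⟩⟩))
    obtain ⟨h3, h4⟩ := hf ⟨x, rfl⟩
    cases hfx : f ⟨x, rfl⟩ with
    | inl k =>
      rw [hfx] at h3 h4
      obtain ⟨-, rfl⟩ : k ∈ K ∧ x = k := h3
      exact h4 rfl
    | inr y =>
      rw [hfx] at h3
      exact hG'K x y h3 hk
  | inr y =>
    obtain ⟨I, hI, hI'⟩ := h2 x y hxy
    obtain ⟨hI1, hI2⟩ := Matroid.restrict_indep_iff.1 hI
    have := hdown _ (deleteEdge G' x y) I (fun _ _ h => h.1)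
      (fun a b h => ⟨h.1, fun e => h.2 (by
        obtain ⟨rfl, rfl⟩ := Prod.mk.inj e
        rfl)⟩) (heq' I ((hmain I).2 hI1))
    rw [sdiff_eq_left.2 (disjoint_left.2 fun a ha hb => hI2 ha hb)] at this
    exact hI' this

end Pool.Agent.Results.MP_0776bc_co.MinimalPresentation
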